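import Pool.Agent.Lib.MP_bc213e_ag.DD.Defs
import Pool.Agent.Lib.MP_bc213e_ag.Jet.Cnt

/-! Combinatorics of the sets of leading exponents. -/

namespace Pool.Agent.Lib.MP_bc213e_ag.DD

variable {b : ℕ}

/-- A graded semigroup of finite lower sets. -/
structure Gam (G : ℕ → Set (Fin b →₀ ℕ)) : Prop where
  down : ∀ k α β, α ≤ β → β ∈ G k → α ∈ G k
  add : ∀ k k' α α', α ∈ G k → α' ∈ G k' → α + α' ∈ G (k + k')
  zero : ∀ k, 0 ∈ G k
  fin : ∀ k, (G k).Finite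

variable {G F : ℕ → Set (Fin b →₀ ℕ)}

theorem Gam.smul (hG : Gam G) {k : ℕ} {α : Fin b →₀ ℕ} (h : α ∈ G k) (N : ℕ) :
    N • α ∈ G (N * k) := by
  induction N with
  | zero => simpa using hG.zero 0
  | succ N ih =>
    rw [succ_nsmul, Nat.succ_mul]
    exact hG.add _ _ _ _ ih h

theorem Gam.level (hG : Gam G) (l : ℕ) : Gam fun k => G (k * l) :=
  ⟨fun _ => hG.down _, fun _ _ _ _ h h' => by
    rw [add_mul]
    exact hG.add _ _ _ _ h h', fun _ => hG.zero _, fun _ => hG.fin _⟩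

/-- Sketch: induction on `γ ≤ τ` (`Jet.deg_ind`). If `N • γ ∈ F (N + c)` for all `N`, take
`K = t k` with `K ≥ (c + 1) γ i + 2` and `K ≥ c`, `α₁ = t • α`, `α₂ = (M K - c) • γ`; the new
exponent plus `uno` is at most `γ + 2 • uno`. -/
theorem reach (hG : Gam G) (F0 : ∀ k, 0 < k → 0 ∈ F k) {M : ℕ} (hM : 0 < M)
    (t1 : ∀ K α₁ α₂ γ, 0 < K → α₁ ∈ G K → α₂ ∈ F (M * K) →
      ((M + 1) * K + 1) • (γ + uno b) ≤ α₁ + α₂ → ∃ c, ∀ N, N • γ ∈ F (N + c))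
    {k : ℕ} (hk : 0 < k) {α τ : Fin b →₀ ℕ} (hα : α ∈ G k)
    (h : k • (τ + (2 * M + 3) • uno b) ≤ α) : ∃ c, ∀ N, N • τ ∈ F (N + c) := by
  suffices H : ∀ γ : Fin b →₀ ℕ, γ ≤ τ → ∃ c, ∀ N, N • γ ∈ F (N + c) from H τ le_rfl
  intro γ
  induction γ using Jet.deg_ind with
  | h0 => exact fun _ => ⟨1, fun N => by simpa using F0 (N + 1) N.succ_pos⟩
  | h1 γ i ih =>
    intro hγ
    have hγ' : γ ≤ τ := le_trans le_self_add hγ
    obtain ⟨c, hc⟩ := ih hγ'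
    obtain ⟨t, ht⟩ : ∃ t, t = (c + 1) * γ.degree + 2 + c := ⟨_, rfl⟩
    have h1 : t ≤ t * k := Nat.le_mul_of_pos_right t hk
    have h2 : t * k ≤ M * (t * k) := Nat.le_mul_of_pos_left _ hM
    obtain ⟨d, hd⟩ : ∃ d, M * (t * k) = d + c := ⟨M * (t * k) - c, by omega⟩
    refine t1 (t * k) (t • α) (d • γ) _ (by omega) (hG.smul hα t) (hd ▸ hc d) fun j => ?_
    have a1 : k * (τ j + (2 * M + 3)) ≤ α j := by simpa [← mul_add] using h j
    have a2 : γ j ≤ τ j := hγ' j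
    have a3 : (c + 1) * γ j ≤ (c + 1) * γ.degree := Nat.mul_le_mul_left _ (Finsupp.le_degree j γ)
    have a4 : (Finsupp.single i 1 : Fin b →₀ ℕ) j ≤ 1 := by
      rw [Finsupp.single_apply]
      split_ifs <;> omega
    have a5 : t * k * (γ j + (2 * M + 3)) ≤ t * α j := by
      rw [mul_assoc]
      exact Nat.mul_le_mul_left _ ((Nat.mul_le_mul_left _ (by omega)).trans a1)
    have a6 : (c + 1) * γ j + 2 ≤ t * k := by omega
    simp only [Finsupp.smul_apply, Finsupp.add_apply, uno_apply, smul_eq_mul]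
    generalize t * k = K at hd a5 a6
    refine (Nat.mul_le_mul_left _ (show _ ≤ γ j + 2 by omega)).trans ?_
    have a7 : M * K * γ j = d * γ j + c * γ j := by rw [hd, add_mul]
    nlinarith

/-- Sketch: `α = β / w`; apply `reach` to `τ = α + 2 • uno` and the element
`(s k₀) • β + K • (e k₀) • uno` of level `K k₀ (s + 1)`, `e = (s + 1) (2 M + 5)`; then
`N • (α + uno) ≤ (N - c) • τ` for large `N`. -/
theorem low (hG : Gam G) (Fd : ∀ k α β, α ≤ β → β ∈ F k → α ∈ F k) (F0 : ∀ k, 0 < k → 0 ∈ F k)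
    {M : ℕ} (hM : 0 < M)
    (t1 : ∀ K α₁ α₂ γ, 0 < K → α₁ ∈ G K → α₂ ∈ F (M * K) →
      ((M + 1) * K + 1) • (γ + uno b) ≤ α₁ + α₂ → ∃ c, ∀ N, N • γ ∈ F (N + c))
    (t2 : ∀ α, (∀ᶠ N in Filter.atTop, N • (α + uno b) ∈ F N) → α ∈ F 1)
    {s k₀ : ℕ} (hs : 0 < s) (hk : 0 < k₀) (cube : ((s + 1) * (2 * M + 5) * k₀) • uno b ∈ G k₀)
    {K w : ℕ} (hK : 0 < K) (hw : (s + 1) * K ≤ s * w) {β : Fin b →₀ ℕ} (hβ : β ∈ G K) :
    β.mapRange (· / w) (Nat.zero_div w) ∈ F 1 := by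
  obtain ⟨α, hα⟩ : ∃ α, α = β.mapRange (· / w) (Nat.zero_div w) := ⟨_, rfl⟩
  have h0 : ∀ j, w * α j ≤ β j := fun j => by
    rw [hα, Finsupp.mapRange_apply]
    exact Nat.mul_div_le _ _
  rw [← hα]
  obtain ⟨c, hc⟩ := reach hG F0 hM t1 (τ := α + 2 • uno b) (by positivity)
    (hG.add _ _ _ _ (hG.smul hβ (s * k₀)) (hG.smul cube K)) fun j => by
      have a1 : (s + 1) * K * α j ≤ s * β j :=
        (Nat.mul_le_mul_right _ hw).trans (by rw [mul_assoc]; exact Nat.mul_le_mul_left _ (h0 j))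
      have a2 := Nat.mul_le_mul_left k₀ a1
      simp only [Finsupp.smul_apply, Finsupp.add_apply, uno_apply, smul_eq_mul]
      nlinarith
  refine t2 α ((Filter.eventually_ge_atTop (c * (α.degree + 2))).mono fun N hN => ?_)
  have h1 : c ≤ c * (α.degree + 2) := Nat.le_mul_of_pos_right c (by omega)
  obtain ⟨d, rfl⟩ : ∃ d, N = d + c := ⟨N - c, by omega⟩
  refine Fd _ _ _ (fun j => ?_) (hc d)
  have a1 : c * (α j + 2) ≤ c * (α.degree + 2) :=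
    Nat.mul_le_mul_left _ (Nat.add_le_add_right (Finsupp.le_degree j α) 2)
  simp only [Finsupp.smul_apply, Finsupp.add_apply, uno_apply, smul_eq_mul]
  nlinarith

/-- Sketch: `w' = k₂ s² k₀`, `K = s k₀ (k₁ s + 1)`, `w = k₀ (k₁ s + 1) (s + 1)`;
`Jet.cnt_up` from `G k₁` to `G (K k₂)`, `Jet.cnt_down` from there to `A`; cancel `k₀ ^ b`. -/
theorem cmp (hG : Gam G) {A : Set (Fin b →₀ ℕ)} (hA : A.Finite) {k₁ k₂ s k₀ : ℕ} (h₁ : 0 < k₁)
    (h₂ : 0 < k₂) (hs : 0 < s) (hk : 0 < k₀) (cube : (s * k₀) • uno b ∈ G k₀)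
    (low : ∀ K w, 0 < K → (s + 1) * K ≤ s * w → ∀ β ∈ G (K * k₂),
      β.mapRange (· / w) (Nat.zero_div w) ∈ A) :
    (G k₁).ncard * (k₂ * s ^ 2) ^ b ≤ A.ncard * (k₁ * (s + 1) ^ 2) ^ b := by
  have h1 := Jet.cnt_up (A := G k₁) (w := k₂ * s ^ 2 * k₀) (hG.fin (s * k₀ * (k₁ * s + 1) * k₂))
    fun α hα r hr => by
      have a1 : r ∈ G (k₂ * s * k₀) := hG.down _ _ _ (fun j => by
        have a2 := (hr j).le
        simp only [Finsupp.smul_apply, uno_apply, smul_eq_mul]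
        nlinarith) (hG.smul cube (k₂ * s))
      have a3 := hG.add _ _ _ _ (hG.smul hα (k₂ * s ^ 2 * k₀)) a1
      rwa [show k₂ * s ^ 2 * k₀ * k₁ + k₂ * s * k₀ = s * k₀ * (k₁ * s + 1) * k₂ by ring] at a3
  have h2 := Jet.cnt_down (w := (k₁ * s + 1) * (s + 1) * k₀) (by positivity) hA
    (low (s * k₀ * (k₁ * s + 1)) _ (by positivity) (le_of_eq (by ring)))
  have h3 : ((k₁ * s + 1) * (s + 1) * k₀) ^ b ≤ (k₁ * (s + 1) ^ 2 * k₀) ^ b :=
    Nat.pow_le_pow_left (Nat.mul_le_mul_right _ (by nlinarith)) b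
  rw [Fintype.card_fin] at h1 h2
  have h4 := h1.trans (h2.trans (Nat.mul_le_mul_left _ h3))
  rw [mul_pow _ k₀, mul_pow _ k₀, ← mul_assoc, ← mul_assoc] at h4
  exact Nat.le_of_mul_le_mul_right h4 (by positivity)

end Pool.Agent.Lib.MP_bc213e_ag.DD
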