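import Pool.Agent.Lib.MP_bc213e_ag.CA.Poly

/-! The numerical end of the proof. -/

namespace Pool.Agent.Lib.MP_bc213e_ag.DD

open Polynomial Filter

/-- Faulhaber (`Polynomial.sum_range_pow_eq_bernoulli_sub`), or induction on the degree. -/
theorem num_sum (p : ℚ[X]) {ν : ℕ} (h : p.natDegree ≤ ν) : ∃ Q : ℚ[X], Q.natDegree ≤ ν + 1 ∧
    Q.coeff (ν + 1) = p.coeff ν / (ν + 1) ∧
      ∀ m : ℕ, Q.eval (m : ℚ) = ∑ i ∈ Finset.range (m + 1), p.eval (i : ℚ) := by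
  have hb : ∀ i : ℕ, (Polynomial.bernoulli i).natDegree ≤ i := fun i =>
    natDegree_le_iff_coeff_eq_zero.2 fun n hn => by rw [coeff_bernoulli, if_neg (by omega)]
  have hd : ∀ i : ℕ, (taylor (1 : ℚ) (Polynomial.bernoulli (i + 1)) -
      C (_root_.bernoulli (i + 1))).natDegree ≤ i + 1 := fun i =>
    (natDegree_sub_le _ _).trans (max_le (by rw [natDegree_taylor]; exact hb _) (by simp))
  refine ⟨∑ i ∈ Finset.range (ν + 1), C (p.coeff i / (i + 1)) *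
    (taylor (1 : ℚ) (Polynomial.bernoulli (i + 1)) - C (_root_.bernoulli (i + 1))), ?_, ?_, ?_⟩
  · exact natDegree_sum_le_of_forall_le _ _ fun i hi => (natDegree_C_mul_le _ _).trans
      ((hd i).trans (by have := Finset.mem_range.1 hi; omega))
  · rw [finsetSum_coeff, Finset.sum_eq_single_of_mem ν (by simp), coeff_C_mul, coeff_sub,
      CA.coeff_taylor_of_le (hb _), coeff_bernoulli, coeff_C_succ]
    · simp
    · intro i hi ne
      have := Finset.mem_range.1 hi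
      rw [coeff_C_mul, coeff_eq_zero_of_natDegree_lt ((hd i).trans_lt (by omega)), mul_zero]
  · intro m
    simp only [eval_eq_sum_range' (Nat.lt_succ_of_le h)]
    rw [Finset.sum_comm, eval_finsetSum]
    refine Finset.sum_congr rfl fun i _ => ?_
    have h1 := Polynomial.sum_range_pow_eq_bernoulli_sub (m + 1) i
    rw [eval_mul, eval_C, eval_sub, eval_C, taylor_eval, ← Finset.mul_sum]
    push_cast at h1
    rw [← h1]
    field_simp

/-- Compare the top coefficients (`CA.coeff_nonneg`). -/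
theorem num_lead {p p' : ℚ[X]} {ν : ℕ} (h : p.natDegree ≤ ν) (h' : p'.natDegree ≤ ν) {k k' : ℕ}
    {c c' : ℚ} (hc : ∀ᶠ m : ℕ in atTop, (∑ i ∈ Finset.range (k * m + 1), p.eval (i : ℚ)) * c ≤
      (∑ i ∈ Finset.range (k' * m + 1), p'.eval (i : ℚ)) * c') :
    (k : ℚ) ^ (ν + 1) * p.coeff ν * c ≤ (k' : ℚ) ^ (ν + 1) * p'.coeff ν * c' := by
  obtain ⟨Q, hQ1, hQ2, hQ3⟩ := num_sum p h
  obtain ⟨R, hR1, hR2, hR3⟩ := num_sum p' h'
  have hd : ∀ (S : ℚ[X]) (x y : ℚ), S.natDegree ≤ ν + 1 →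
      (C x * S.comp (C y * X)).natDegree ≤ ν + 1 := fun S x y hS =>
    (natDegree_C_mul_le _ _).trans (natDegree_comp_le.trans
      ((Nat.mul_le_mul hS ((natDegree_C_mul_le _ _).trans natDegree_X_le)).trans_eq (mul_one _)))
  have h1 := CA.coeff_nonneg (m := ν + 1)
    (q := C c' * R.comp (C (k' : ℚ) * X) - C c * Q.comp (C (k : ℚ) * X))
    ((natDegree_sub_le _ _).trans (max_le (hd _ _ _ hR1) (hd _ _ _ hQ1)))
    (hc.mono fun m hm => by
      rw [← hQ3, ← hR3] at hm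
      simp only [eval_sub, eval_mul, eval_C, eval_comp, eval_X]
      push_cast at hm
      linarith).frequently
  rw [coeff_sub, coeff_C_mul, coeff_C_mul, comp_C_mul_X_coeff, comp_C_mul_X_coeff, hQ2, hR2] at h1
  have h2 : (0 : ℚ) < ν + 1 := by positivity
  have h3 := mul_nonneg h1 h2.le
  have h4 : (c' * (p'.coeff ν / (ν + 1) * (k' : ℚ) ^ (ν + 1)) -
      c * (p.coeff ν / (ν + 1) * (k : ℚ) ^ (ν + 1))) * (ν + 1) =
      (k' : ℚ) ^ (ν + 1) * p'.coeff ν * c' - (k : ℚ) ^ (ν + 1) * p.coeff ν * c := by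
    field_simp
  linarith

theorem num_lim {A B : ℚ} {b : ℕ} (h : ∀ s : ℕ, 0 < s → A * (s : ℚ) ^ b ≤ B * ((s : ℚ) + 1) ^ b) :
    A ≤ B := by
  have hm : ((X + C (1 : ℚ)) ^ b).Monic := (monic_X_add_C _).pow _
  have hm' : ((X + C (1 : ℚ)) ^ b).natDegree = b := by
    rw [(monic_X_add_C _).natDegree_pow, natDegree_X_add_C, mul_one]
  have h1 := CA.coeff_nonneg (m := b) (q := C B * (X + C (1 : ℚ)) ^ b - C A * X ^ b)
    ((natDegree_sub_le _ _).trans (max_le ((natDegree_C_mul_le _ _).trans hm'.le)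
      (natDegree_C_mul_X_pow_le _ _)))
    ((eventually_gt_atTop 0).mono fun s hs => by
      simp only [eval_sub, eval_mul, eval_C, eval_pow, eval_add, eval_X]
      exact sub_nonneg.2 (h s hs)).frequently
  have h2 := hm.coeff_natDegree
  rw [hm'] at h2
  rw [coeff_sub, coeff_C_mul, coeff_C_mul, h2, coeff_X_pow_self] at h1
  linarith

theorem num_den (v : ℚ[X]) : ∃ D : ℕ, 0 < D ∧ ∀ k : ℕ, ∃ w : ℤ, D * v.eval (k : ℚ) = w := by
  induction v using Polynomial.induction_on' with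
  | add p q hp hq =>
    obtain ⟨D, hD, h1⟩ := hp
    obtain ⟨E, hE, h2⟩ := hq
    refine ⟨D * E, Nat.mul_pos hD hE, fun k => ?_⟩
    obtain ⟨w, hw⟩ := h1 k
    obtain ⟨x, hx⟩ := h2 k
    refine ⟨E * w + D * x, ?_⟩
    rw [eval_add]
    push_cast
    linear_combination (E : ℚ) * hw + (D : ℚ) * hx
  | monomial n x =>
    refine ⟨x.den, x.den_pos, fun k => ⟨x.num * k ^ n, ?_⟩⟩
    rw [eval_monomial, ← mul_assoc, Rat.den_mul_eq_num]
    push_cast
    rfl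

theorem num_zero {u : ℚ[X]} {c : ℚ} (h : ∀ k : ℕ, 0 < k → ∃ z : ℤ, u.eval (k : ℚ) = k * z * c) :
    u.eval 0 = 0 := by
  obtain ⟨D, hD, h1⟩ := num_den u.divX
  by_contra h0
  obtain ⟨k, hk⟩ := exists_nat_gt |u.eval 0 * (D * c.den)|
  have hk0 : (0 : ℚ) < k := (abs_nonneg _).trans_lt hk
  obtain ⟨z, hz⟩ := h k (Nat.cast_pos.1 hk0)
  obtain ⟨w, hw⟩ := h1 k
  have h2 : u.eval (k : ℚ) = u.eval 0 + k * u.divX.eval (k : ℚ) := by
    conv_lhs => rw [← X_mul_divX_add u]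
    rw [eval_add, eval_mul, eval_X, eval_C, coeff_zero_eq_eval_zero, add_comm]
  have h3 : u.eval 0 * (D * c.den) = k * ((z * D * c.num - w * c.den : ℤ) : ℚ) := by
    push_cast
    rw [← Rat.den_mul_eq_num c, ← hw]
    linear_combination (D * c.den : ℚ) * hz - (D * c.den : ℚ) * h2
  have h4 : (z * D * c.num - w * c.den : ℤ) ≠ 0 := fun h4 => by
    rw [h4, Int.cast_zero, mul_zero] at h3
    exact mul_ne_zero h0 (mul_ne_zero (Nat.cast_ne_zero.2 hD.ne')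
      (Nat.cast_ne_zero.2 c.den_ne_zero)) h3
  have h5 : (1 : ℚ) ≤ |((z * D * c.num - w * c.den : ℤ) : ℚ)| := by
    exact_mod_cast Int.one_le_abs h4
  rw [h3, abs_mul, abs_of_pos hk0] at hk
  exact absurd hk (not_lt.2 (le_mul_of_one_le_right hk0.le h5))

/-- Induction on `j`: clear denominators; an integer divisible by all `k` vanishes. -/
theorem num_dvd (j : ℕ) (q : ℚ[X]) {r a c : ℚ} (hr : r ≠ 0) (ha : a ≠ 0)
    (h : ∀ k : ℕ, 0 < k → ∃ z : ℤ, q.eval (k * a) * r = (k : ℚ) ^ j * z * c) : X ^ j ∣ q := by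
  induction j with
  | zero => simp
  | succ j ih =>
    obtain ⟨u, rfl⟩ := ih fun k hk => by
      obtain ⟨z, hz⟩ := h k hk
      exact ⟨k * z, by rw [hz]; push_cast; ring⟩
    have h1 := num_zero (u := C (a ^ j * r) * u.comp (C a * X)) (c := c) fun k hk => by
      obtain ⟨z, hz⟩ := h k hk
      refine ⟨z, mul_left_cancel₀ (pow_ne_zero j (Nat.cast_ne_zero.2 hk.ne' : (k : ℚ) ≠ 0)) ?_⟩
      simp only [eval_mul, eval_C, eval_comp, eval_X, eval_pow, mul_comm a (k : ℚ)] at hz ⊢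
      linear_combination hz
    simp only [eval_mul, eval_C, eval_comp, eval_X, mul_zero, mul_eq_zero, pow_ne_zero j ha, hr,
      false_or] at h1
    rw [pow_succ]
    exact mul_dvd_mul_left _ (X_dvd_iff.2 (by rwa [coeff_zero_eq_eval_zero]))

/-- Sketch: `q = P.coeff ν`; for fixed `a` the polynomial `P.map (evalRingHom a)` has degree at
most `ν` and top coefficient `q.eval a`. `num_lead` and `num_lim` for `(k, 1)` and `(1, k)` give
`k ^ (ν + 1) q (k a) ρ a = k ^ b ρ (k a) q a`; `num_dvd`. -/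
theorem num {ν j b : ℕ} (P : ℚ[X][X]) (deg : P.natDegree ≤ ν) (order : ¬ X ^ (j + 1) ∣ P.coeff ν)
    (h : ℕ → ℕ → ℕ) (a₀ : ℕ) (hP : ∀ t a : ℕ, a₀ ≤ a → (h t a : ℚ) = P.evalEval (a : ℚ) (t : ℚ))
    (ρ : ℕ → ℕ) (hρ : ∀ a, 0 < ρ a) {a : ℕ} (ha₀ : a₀ ≤ a) (ha : 0 < a)
    (cmp : ∀ k₁ k₂ s : ℕ, 0 < k₁ → 0 < k₂ → 0 < s → ∀ᶠ m : ℕ in atTop,
      (∑ i ∈ Finset.range (k₁ * m + 1), h i (k₁ * a)) * ρ (k₂ * a) * (k₂ * s ^ 2) ^ b ≤
        (∑ i ∈ Finset.range (k₂ * m + 1), h i (k₂ * a)) * ρ (k₁ * a) * (k₁ * (s + 1) ^ 2) ^ b) :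
    b ≤ ν + 1 + j := by
  have key : ∀ k₁ k₂ : ℕ, 0 < k₁ → 0 < k₂ →
      (k₁ : ℚ) ^ (ν + 1) * (P.coeff ν).eval ((k₁ * a : ℕ) : ℚ) * ρ (k₂ * a) * (k₂ : ℚ) ^ b ≤
        (k₂ : ℚ) ^ (ν + 1) * (P.coeff ν).eval ((k₂ * a : ℕ) : ℚ) * ρ (k₁ * a) * (k₁ : ℚ) ^ b := by
    intro k₁ k₂ h₁ h₂
    refine num_lim (b := 2 * b) fun s hs => ?_
    have h1 := num_lead (p := P.map (evalRingHom ((k₁ * a : ℕ) : ℚ)))
      (p' := P.map (evalRingHom ((k₂ * a : ℕ) : ℚ))) (ν := ν) (natDegree_map_le.trans deg)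
      (natDegree_map_le.trans deg) (k := k₁) (k' := k₂)
      (c := (ρ (k₂ * a) : ℚ) * ((k₂ : ℚ) * (s : ℚ) ^ 2) ^ b)
      (c' := (ρ (k₁ * a) : ℚ) * ((k₁ : ℚ) * ((s : ℚ) + 1) ^ 2) ^ b)
      ((cmp k₁ k₂ s h₁ h₂ hs).mono fun m hm => by
        simp only [map_evalRingHom_eval,
          ← hP _ _ (ha₀.trans (Nat.le_mul_of_pos_left a h₁)),
          ← hP _ _ (ha₀.trans (Nat.le_mul_of_pos_left a h₂)), ← mul_assoc]
        exact_mod_cast hm)
    rw [coeff_map, coeff_map, coe_evalRingHom, coe_evalRingHom, mul_pow, mul_pow, ← pow_mul,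
      ← pow_mul] at h1
    linarith
  by_contra hb
  obtain ⟨e, rfl⟩ := Nat.exists_eq_add_of_lt (not_le.1 hb)
  refine order (num_dvd (j + 1) (P.coeff ν) (r := ρ a) (a := a) (c := (P.coeff ν).eval (a : ℚ))
    (Nat.cast_ne_zero.2 (hρ a).ne') (Nat.cast_ne_zero.2 ha.ne') fun k hk => ?_)
  have h1 := le_antisymm (key k 1 hk one_pos) (key 1 k one_pos hk)
  refine ⟨k ^ e * ρ (k * a),
    mul_left_cancel₀ (pow_ne_zero (ν + 1) (Nat.cast_ne_zero.2 hk.ne' : (k : ℚ) ≠ 0)) ?_⟩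
  simp only [one_mul, Nat.cast_one, one_pow, mul_one] at h1
  push_cast at h1 ⊢
  linear_combination h1

/-- `q ≠ 0` has finitely many roots; `CA.coeff_nonneg`, `CA.ev_pos`. -/
theorem num_big {ν : ℕ} (P : ℚ[X][X]) (deg : P.natDegree ≤ ν) (h0 : P.coeff ν ≠ 0)
    (h : ℕ → ℕ → ℕ) (a₀ : ℕ) (hP : ∀ t a : ℕ, a₀ ≤ a → (h t a : ℚ) = P.evalEval (a : ℚ) (t : ℚ)) :
    ∃ (a : ℕ) (c : ℚ), 0 < a ∧ 0 < c ∧ ∀ᶠ t : ℕ in atTop, c * (t : ℚ) ^ ν ≤ h t a := by
  obtain ⟨a, h1, h2, h3⟩ := ((CA.ev_pos (q := P.coeff ν * P.coeff ν) le_rfl (by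
    rw [← leadingCoeff, leadingCoeff_mul]
    exact mul_self_pos.2 (leadingCoeff_ne_zero.2 h0))).and
      ((eventually_ge_atTop a₀).and (eventually_gt_atTop 0))).exists
  rw [eval_mul] at h1
  have hd : (P.map (evalRingHom (a : ℚ))).natDegree ≤ ν := natDegree_map_le.trans deg
  have h4 := CA.coeff_nonneg hd (Eventually.frequently (Eventually.of_forall fun t => by
    rw [map_evalRingHom_eval, ← hP t a h2]
    exact Nat.cast_nonneg _))
  rw [coeff_map, coe_evalRingHom] at h4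
  have h5 : 0 < (P.coeff ν).eval (a : ℚ) := h4.lt_of_ne' (mul_self_pos.1 h1)
  refine ⟨a, (P.coeff ν).eval (a : ℚ) / 2, h3, half_pos h5, (CA.ev_pos (m := ν)
    (q := P.map (evalRingHom (a : ℚ)) - C ((P.coeff ν).eval (a : ℚ) / 2) * X ^ ν)
    ((natDegree_sub_le _ _).trans (max_le hd (natDegree_C_mul_X_pow_le _ _))) (by
      rw [coeff_sub, coeff_map, coe_evalRingHom, coeff_C_mul, coeff_X_pow_self]
      linarith)).mono fun t ht => ?_⟩
  rw [eval_sub, map_evalRingHom_eval, ← hP t a h2, eval_mul, eval_C, eval_pow, eval_X] at ht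
  linarith

end Pool.Agent.Lib.MP_bc213e_ag.DD
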