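import Pool.Agent.Lib.MP_bc213e_ag.DS.Main
import Pool.Agent.Lib.MP_bc213e_ag.DB.Fibre

/-! A multiple of `L` is trivial on the generic fibre. -/

namespace Pool.Agent.Lib.MP_bc213e_ag.DS

open Pool.Agent.Lib.MP_bc213e_ag.Hyp Pool.Agent.Lib.MP_bc213e_ag.KBB Filter Module WithZero

variable {K ι L : Type} [Field K] [Algebra ℂ K] [Field L] [Algebra ℂ L] [Algebra K L]
  [IsScalarTower ℂ K L] {x g : ι → Kˣ}

theorem indep_res' {w : Val L} (hK : ∀ c : K, c ≠ 0 → w (algebraMap K L c) = 1)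
    (res : ∀ θ, w θ ≤ 1 → ∃ c : K, w (θ - algebraMap K L c) < 1)
    (k1 : IntermediateField ℂ L) {κ : Type} {s : κ → K} {f : κ → L} (hf : ∀ i, (f i, s i) ∈ Res hK)
    (hs : LinearIndependent (resField hK k1) s) : LinearIndependent k1 f := by
  rw [linearIndependent_iff'] at hs ⊢
  intro t θ hθ i hi
  obtain ⟨j, hj, hmax⟩ := t.exists_max_image (fun i => w (θ i)) ⟨i, hi⟩
  by_contra h0
  have h1 : 0 < w (θ j) := (zero_lt_iff.2 ((_root_.map_ne_zero w).2 fun e =>
    h0 (Subtype.ext e))).trans_le (hmax i hi)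
  have h2 : (θ j : L) ≠ 0 := (_root_.map_ne_zero w).1 h1.ne'
  have h3 : ∀ i, ∃ c : resField hK k1, i ∈ t → w (θ i / θ j - algebraMap K L c) < 1 := fun i => by
    by_cases hi : i ∈ t
    · obtain ⟨c, hc⟩ := res (θ i / θ j) (by
        rw [map_div₀]
        exact (div_le_one₀ h1).2 (hmax i hi))
      exact ⟨⟨c, (mem_resField hK).2 ⟨_, div_mem (θ i).2 (θ j).2, hc⟩⟩, fun _ => hc⟩
    · exact ⟨0, fun h => absurd h hi⟩
  choose c hc using h3
  have h4 : ∑ i ∈ t, (((θ i : L) / θ j, (c i : K)) : L × K) * (f i, s i) ∈ Res hK :=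
    sum_mem fun i hi => mul_mem (show ((θ i : L) / θ j, (c i : K)) ∈ Res hK from hc i hi) (hf i)
  have h5 : ∑ i ∈ t, (θ i : L) / θ j * f i = 0 := by
    simp only [div_mul_eq_mul_div, ← Finset.sum_div]
    exact div_eq_zero_iff.2 (Or.inl hθ)
  have h6 : ∑ i ∈ t, c i • s i = 0 := by
    by_contra h6
    refine (hK _ h6).not_lt ?_
    have h7 : w ((∑ i ∈ t, (((θ i : L) / θ j, (c i : K)) : L × K) * (f i, s i)).1 -
      algebraMap K L (∑ i ∈ t, (((θ i : L) / θ j, (c i : K)) : L × K) * (f i, s i)).2) < 1 := h4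
    rw [Prod.fst_sum, Prod.snd_sum] at h7
    simp only [Prod.mk_mul_mk] at h7
    rwa [h5, zero_sub, w.map_neg] at h7
  have h7 := hc j hj
  rw [hs t c h6 j hj, div_self h2] at h7
  simp at h7

theorem torsion [Fintype ι] (hc : Cart x g) (hn : Nef x g) (i₀ : ι) (u : L)
    (hu : Transcendental K u) (gen : IntermediateField.adjoin K {u} = ⊤)
    (k1 : IntermediateField ℂ L) {d : ℕ} (hk : Algebra.trdeg ℂ k1 ≤ (d + 1 : ℕ))
    (fd : ∀ a, FiniteDimensional k1 (Submodule.span k1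
      {f | ∃ (i : ℕ) (s : K), Sec x g i a s ∧ f = algebraMap K L s * u ^ i})) :
    ∃ (k0 : IntermediateField ℂ K) (N : ℕ) (θ : K), Algebra.trdeg ℂ k0 ≤ d ∧ 0 < N ∧
      ∀ i (O : ValuationSubring K), (∀ c ∈ k0, c ∈ O) → (∀ r ∈ chart x i, r ∈ O) →
        O.valuation θ = O.valuation ((g i : K) ^ N) := by
  obtain ⟨w, hK, h1, res⟩ := exists_val hu gen
  have u0 : u ≠ 0 := fun e => hu (e ▸ isAlgebraic_zero)
  have fin : ∀ (a : ℕ) (e : ℕ → ℕ) (s : ℕ → K), (∀ t, Sec x g (e t) a (s t)) →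
      ¬ LinearIndependent k1 fun t => algebraMap K L (s t) * u ^ e t := fun a e s hs h => by
    have := fd a
    exact Module.Finite.not_linearIndependent_of_infinite (M := Submodule.span k1
      {f | ∃ (i : ℕ) (s : K), Sec x g i a s ∧ f = algebraMap K L s * u ^ i})
      (fun t => ⟨algebraMap K L (s t) * u ^ e t, Submodule.subset_span ⟨e t, s t, hs t, rfl⟩⟩)
      (.of_comp (Submodule.subtype _) h)
  obtain ⟨h, h2, h3, h4⟩ : ∃ h ∈ k1, h ≠ 0 ∧ w h < 1 := by
    by_contra hn'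
    push Not at hn'
    obtain ⟨a, -, hs⟩ := DD.pf hc hn i₀ ⊥ bot_ne_top
    choose r r0 r1 using hs
    have s0 : ∀ t : ℕ, (r t : K) * fr x g t a i₀ ≠ 0 := fun t =>
      mul_ne_zero (fun e => r0 t (Subtype.ext e : r t = 0)) (fr_ne _ _ _ _ _)
    refine fin a id _ r1 (indep_val (F := k1) (w := w) (fun c hc => ?_)
      (fun t => mul_ne_zero ((_root_.map_ne_zero _).2 (s0 t)) (pow_ne_zero _ u0)) fun i j e => ?_)
    · have c0 : (c : L) ≠ 0 := fun e => hc (Subtype.ext e)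
      have := hn' _ (k1.inv_mem c.2) (inv_ne_zero c0)
      rw [map_inv₀, one_le_inv₀ (zero_lt_iff.2 ((_root_.map_ne_zero w).2 c0))] at this
      exact le_antisymm this (hn' _ c.2 c0)
    · simp only [map_mul w, hK _ (s0 _), one_mul, map_pow] at e
      exact pow_right_injective₀ (zero_lt_iff.2 ((_root_.map_ne_zero w).2 u0)) h1.ne e
  have lg : ∀ z : L, z ≠ 0 → w z < 1 → ∃ N : ℕ, 0 < N ∧ w z = exp (-(N : ℤ)) := fun z z0 z1 => by
    have e := exp_log ((_root_.map_ne_zero w).2 z0)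
    rw [← e, ← exp_zero, exp_lt_exp] at z1
    exact ⟨(-log (w z)).toNat, by omega, by rw [← e, log_exp]; congr 1; omega⟩
  obtain ⟨N, N0, hN⟩ := lg h h3 h4
  obtain ⟨e, -, he⟩ := lg u u0 h1
  have h5 : w (u ^ N / h ^ e) = 1 := by
    rw [map_div₀, map_pow, map_pow, hN, he, ← exp_nsmul, ← exp_nsmul, ← exp_sub, ← exp_zero]
    congr 1
    simp only [nsmul_eq_mul]
    ring
  obtain ⟨c, hc'⟩ := res _ h5.le
  have c0 : c ≠ 0 := fun e => by simp [e, h5] at hc'
  refine ⟨resField hK k1, N, c⁻¹, Cardinal.add_one_le_add_one_iff.1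
    ((trdeg_res hK k1 h2 h3 h4).trans (by exact_mod_cast hk)), N0, fun i O hO hA => ?_⟩
  let ρ : chart x i →+* O := (chart x i).val.toRingHom.codRestrict O fun r => hA r r.2
  obtain ⟨a, -, hs⟩ := DD.pf hc hn i ((IsLocalRing.maximalIdeal O).comap ρ)
    (Ideal.comap_ne_top ρ (IsLocalRing.maximalIdeal.isMaximal O).ne_top)
  choose r r0 r1 using hs
  have r2 : ∀ t, O.valuation (r t : K) = 1 := fun t =>
    le_antisymm ((O.valuation_le_one_iff _).2 (hA _ (r t).2))
      (not_lt.1 fun e => r0 t ((O.valuation_lt_one_iff (ρ (r t))).2 e))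
  have g0 : (g i : K) ^ N * c ≠ 0 := mul_ne_zero (pow_ne_zero _ (g i).ne_zero) c0
  have x0 : O.valuation ((x i : K) ^ a) ≠ 0 :=
    (_root_.map_ne_zero _).2 (pow_ne_zero _ (x i).ne_zero)
  by_contra hne
  have h6 : O.valuation ((g i : K) ^ N * c) ≠ 1 := fun e => hne (by
    rw [map_mul] at e
    rw [map_inv₀, eq_inv_of_mul_eq_one_left e])
  have e1 : ∀ t : ℕ, (r (N * t) : K) * fr x g (N * t : ℕ) a i * c ^ t =
      r (N * t) * ((g i : K) ^ N * c) ^ t * (x i : K) ^ a := fun t => by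
    rw [fr, zpow_natCast, pow_mul]
    ring
  have h7 : LinearIndependent (resField hK k1)
      fun t : ℕ => (r (N * t) : K) * fr x g (N * t : ℕ) a i * c ^ t :=
    DD.Geo.fibre_indep O (fun z => hO _ z.2) (fun t => by
      rw [e1, ← _root_.map_ne_zero O.valuation, map_mul, map_mul, r2, one_mul]
      exact mul_ne_zero ((_root_.map_ne_zero _).2 (pow_ne_zero _ g0)) x0) fun t t' e => by
        simp only [e1, map_mul O.valuation (_ * _), map_mul O.valuation (r _ : K), r2, one_mul,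
          mul_left_inj' x0, map_pow O.valuation (_ * c)] at e
        exact pow_right_injective₀ (zero_lt_iff.2 ((_root_.map_ne_zero _).2 g0)) h6 e
  have h8 := indep_res' hK res k1 (f := fun t : ℕ =>
    algebraMap K L ((r (N * t) : K) * fr x g (N * t : ℕ) a i) * (u ^ N / h ^ e) ^ t) (fun t =>
      mul_mem (show (algebraMap K L _, _) ∈ Res hK by
        change w (_ - _) < 1
        simp) (pow_mem (show (u ^ N / h ^ e, c) ∈ Res hK from hc') t)) h7
  refine fin a (fun t => N * t) _ (fun t => r1 (N * t)) ?_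
  convert h8.units_smul fun t => Units.mk0 (⟨h, h2⟩ : k1) (fun e => h3 (congrArg Subtype.val e)) ^
    (e * t) using 1
  funext t
  change _ = h ^ (e * t) * (_ * _)
  rw [div_pow, ← pow_mul, ← pow_mul, mul_left_comm, mul_div_cancel₀ _ (pow_ne_zero _ h3)]

end Pool.Agent.Lib.MP_bc213e_ag.DS
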