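import Pool.Agent.Lib.MP_bc213e_ag.DN.Comb
import Pool.Agent.Lib.MP_bc213e_ag.DF.Large
import Pool.Agent.Lib.MP_bc213e_ag.DL.Main
import Pool.Agent.Lib.MP_bc213e_ag.DC.Main

/-! Comparison of the dimensions at two proportional levels. -/

namespace Pool.Agent.Lib.MP_bc213e_ag.DD.Geo

open Filter Module

variable {K M ι : Type} [Field K] [Algebra ℂ K] [Field M] [Algebra ℂ M] [Algebra K M] {n : ℕ}
  {S : Su K M ι n} {Ω E : Type} [Field Ω] [Algebra ℂ Ω] [Field E] [Algebra ℂ E] [Algebra Ω E]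
  [IsScalarTower ℂ Ω E] {b φ : ℕ} (G : Geo S Ω E b φ) [IsScalarTower ℂ K M] [Fintype ι]
  [CharZero E]

theorem gam (m a : ℕ) : Gam fun k => {α | G.W (k * m) (k * a) α ≠ ⊥} where
  down := fun k α β h hβ h0 => hβ (eq_bot_iff.2 (h0 ▸ G.W_down _ _ h))
  add := fun k k' α α' h h' => by
    obtain ⟨w, hw, h0⟩ := Submodule.exists_mem_ne_zero_of_ne_bot h
    obtain ⟨w', hw', h0'⟩ := Submodule.exists_mem_ne_zero_of_ne_bot h'
    refine (Submodule.ne_bot_iff _).2 ⟨w * w', ?_, mul_ne_zero h0 h0'⟩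
    rw [add_mul, add_mul]
    exact W_mul hw hw'
  zero := fun k => (Submodule.ne_bot_iff _).2 ⟨1, G.one_mem_W _ _, one_ne_zero⟩
  fin := fun k => G.W_finite _ _

omit [Fintype ι] in
theorem full_down {m a : ℕ} {α β : Fin b →₀ ℕ} (h : α ≤ β) (hβ : G.W m a β = G.R a) :
    G.W m a α = G.R a := le_antisymm (G.W_le_R _ _ _) (hβ ▸ G.W_down _ _ h)

theorem full_zero : ∃ m₁, ∀ m a, m₁ ≤ m → G.W m a 0 = G.R a := by
  obtain ⟨m₁, h⟩ := G.exists_m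
  exact ⟨m₁, fun m a hm => le_antisymm (G.W_le_R _ _ _) (G.W_zero m a ▸ h m a hm)⟩

theorem bpf_full [IsAlgClosed Ω] {m a : ℕ} (ha : 0 < a) {γ : Fin b →₀ ℕ}
    (h0 : ∀ k, 0 < k → G.W (k * m) (k * a) 0 = G.R (k * a))
    (h : ∀ (j : ι) (ev : G.C j →ₐ[Ω] Ω), ∃ w ∈ G.W m a γ, ∃ f : G.C j,
      (f : E) = w / G.X j ^ a ∧ ev f ≠ 0) :
    ∃ c, ∀ N, G.W ((N + c) * m) ((N + c) * a) (N • γ) = G.R ((N + c) * a) := by
  obtain ⟨a₀, h1⟩ := G.genhi (G.W_le_R m a γ) fun j => G.null j (by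
    rintro _ ⟨w, hw, rfl⟩
    exact div_mem_C (G.W_le_R m a γ hw) j) fun ev => by
      obtain ⟨w, hw, f, hf, hf'⟩ := h j ev
      exact ⟨f, ⟨w, hw, hf.symm⟩, hf'⟩
  refine ⟨a₀ + 1, fun N => ?_⟩
  induction N with
  | zero => simpa using h0 (a₀ + 1) a₀.succ_pos
  | succ N ih =>
    refine le_antisymm (G.W_le_R _ _ _) ?_
    have e1 : (N + 1 + (a₀ + 1)) * a = (N + (a₀ + 1)) * a + a := by ring
    have e2 : (N + 1 + (a₀ + 1)) * m = (N + (a₀ + 1)) * m + m := by ring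
    rw [e1, e2, succ_nsmul]
    refine (h1 _ (by nlinarith)).trans (Submodule.mul_le.2 fun w hw w' hw' => ?_)
    rw [mul_comm w]
    exact W_mul (ih.ge hw') hw

theorem geo_low [IsAlgClosed Ω] (hb : S.d₀ + 2 ≤ b) : ∃ a₁, ∀ a s, a₁ ≤ a → 0 < s →
    ∀ᶠ m : ℕ in atTop, ∀ k w, 0 < k → (s + 1) * k ≤ s * w → ∀ β : Fin b →₀ ℕ, G.W (k * m) (k * a) β ≠ ⊥ →
      G.W m a (β.mapRange (· / w) (Nat.zero_div w)) = G.R a := by
  obtain ⟨c₀, e, hT⟩ := G.exists_tau hb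
  obtain ⟨c₁, hc₁⟩ : ∃ c₁, c₁ = S.m * c₀ := ⟨_, rfl⟩
  obtain ⟨a₁, h2⟩ := G.t2 hT
  obtain ⟨m₁, h0⟩ := G.full_zero
  refine ⟨a₁ + 3 * e * φ + 1, fun a s ha hs => ?_⟩
  have ha0 : 0 < a := by omega
  obtain ⟨m₀, hc⟩ := G.cube ((s + 1) * (2 * (c₁ * a + 1) + 5)) a ha0
  filter_upwards [eventually_ge_atTop (m₀ + m₁)] with m hm k w hk hw β hβ
  obtain ⟨k₀, hk₀, hc⟩ := hc m (by omega)
  have F0 : ∀ k, 0 < k → G.W (k * m) (k * a) 0 = G.R (k * a) := fun k hk =>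
    h0 _ _ (by nlinarith)
  have := low (G := fun k => {α | G.W (k * m) (k * a) α ≠ ⊥})
    (F := fun k => {α | G.W (k * m) (k * a) α = G.R (k * a)}) (G.gam m a)
    (fun k α β h hβ => G.full_down h hβ) F0 (M := c₁ * a + 1) (Nat.succ_pos _)
    (fun K₁ α₁ α₂ γ hK h₁ h₂ hγ => G.bpf_full ha0 F0 fun j ev => by
      obtain ⟨T⟩ := hT j ev
      obtain ⟨w, hw, h⟩ := G.t1 T ha0 hK h₁ h₂ hγ
        (by nlinarith) (by rw [← mul_assoc, ← hc₁]; nlinarith) (by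
          have e1 : (c₁ * a + 1 + 1) * K₁ + 1 ≤ 3 * ((c₁ * a + 1) * K₁) := by
            nlinarith [Nat.zero_le (c₁ * a * K₁)]
          calc e * φ * ((c₁ * a + 1 + 1) * K₁ + 1) ≤ e * φ * (3 * ((c₁ * a + 1) * K₁)) :=
                Nat.mul_le_mul_left _ e1
            _ = (c₁ * a + 1) * K₁ * (3 * e * φ) := by ring
            _ ≤ _ := Nat.mul_le_mul_left _ (by omega))
      exact ⟨w, hw, ⟨_, div_mem_C (G.W_le_R m a γ hw) j⟩, rfl, T.τF_ev _ ▸ h⟩)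
    (fun α h => by simpa using h2 m a α (by omega) h) hs hk₀ hc hk hw hβ
  simpa using this

theorem dim_le (m a : ℕ) :
    finrank ℂ (S.V m a) ≤ {α | G.W m a α ≠ ⊥}.ncard * finrank Ω (G.R a) := by
  have := G.fd_R a
  rw [← G.W_sum_eq m a (G.W_finite m a).toFinset fun α h => by simpa using h,
    Set.ncard_eq_toFinset_card _ (G.W_finite m a), ← smul_eq_mul]
  exact Finset.sum_le_card_nsmul _ _ _ fun α _ => Submodule.finrank_mono (G.W_le_R m a α)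

omit [IsScalarTower ℂ K M] [Fintype ι] [CharZero E] in
theorem R_pos (a : ℕ) : 0 < finrank Ω (G.R a) := by
  have := G.fd_R a
  exact finrank_pos_iff_exists_ne_zero.2 ⟨⟨1, G.one_mem_R a⟩, fun h => one_ne_zero
    (congrArg Subtype.val h)⟩

theorem full_finite (m a : ℕ) : {α | G.W m a α = G.R a}.Finite :=
  (G.W_finite m a).subset fun α h => (Submodule.ne_bot_iff _).2
    ⟨1, by rw [show G.W m a α = G.R a from h]; exact G.one_mem_R a, one_ne_zero⟩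

theorem le_dim (m a : ℕ) :
    {α | G.W m a α = G.R a}.ncard * finrank Ω (G.R a) ≤ finrank ℂ (S.V m a) := by
  refine le_trans ?_ (G.W_sum_le m a (G.full_finite m a).toFinset)
  rw [Set.ncard_eq_toFinset_card _ (G.full_finite m a), ← smul_eq_mul]
  refine Finset.card_nsmul_le_sum _ _ _ fun α h => ?_
  rw [show G.W m a α = G.R a by simpa using h]

theorem geo_cmp [IsAlgClosed Ω] (hb : S.d₀ + 2 ≤ b) :
    ∃ a₁, ∀ a, a₁ ≤ a → ∀ k₁ k₂ s : ℕ, 0 < k₁ → 0 < k₂ → 0 < s → ∀ᶠ m : ℕ in atTop,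
      finrank ℂ (S.V (k₁ * m) (k₁ * a)) * finrank Ω (G.R (k₂ * a)) * (k₂ * s ^ 2) ^ b ≤
        finrank ℂ (S.V (k₂ * m) (k₂ * a)) * finrank Ω (G.R (k₁ * a)) *
          (k₁ * (s + 1) ^ 2) ^ b := by
  obtain ⟨a₁, h⟩ := G.geo_low hb
  refine ⟨a₁ + 1, fun a ha k₁ k₂ s h₁ h₂ hs => ?_⟩
  obtain ⟨m₀, hc⟩ := G.cube s a (by omega)
  have ht : Tendsto (fun m : ℕ => k₂ * m) atTop atTop :=
    tendsto_atTop_mono (fun m => Nat.le_mul_of_pos_left m h₂) tendsto_id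
  filter_upwards [eventually_ge_atTop m₀, ht.eventually (h (k₂ * a) s (by nlinarith) hs)]
    with m hm hl
  obtain ⟨k₀, hk₀, hc⟩ := hc m hm
  have e := cmp (G.gam m a) (G.full_finite (k₂ * m) (k₂ * a)) h₁ h₂ hs hk₀ hc
    fun k w hk hw β hβ => hl k w hk hw β (by
      rw [← mul_assoc, ← mul_assoc]
      exact hβ)
  have e1 := G.dim_le (k₁ * m) (k₁ * a)
  have e2 := G.le_dim (k₂ * m) (k₂ * a)
  calc _ ≤ {α | G.W (k₁ * m) (k₁ * a) α ≠ ⊥}.ncard * finrank Ω (G.R (k₁ * a)) *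
        finrank Ω (G.R (k₂ * a)) * (k₂ * s ^ 2) ^ b := by gcongr
    _ = {α | G.W (k₁ * m) (k₁ * a) α ≠ ⊥}.ncard * (k₂ * s ^ 2) ^ b *
        (finrank Ω (G.R (k₁ * a)) * finrank Ω (G.R (k₂ * a))) := by ring
    _ ≤ {α | G.W (k₂ * m) (k₂ * a) α = G.R (k₂ * a)}.ncard * (k₁ * (s + 1) ^ 2) ^ b *
        (finrank Ω (G.R (k₁ * a)) * finrank Ω (G.R (k₂ * a))) := Nat.mul_le_mul_right _ e
    _ = {α | G.W (k₂ * m) (k₂ * a) α = G.R (k₂ * a)}.ncard * finrank Ω (G.R (k₂ * a)) *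
        finrank Ω (G.R (k₁ * a)) * (k₁ * (s + 1) ^ 2) ^ b := by ring
    _ ≤ _ := by gcongr

end Pool.Agent.Lib.MP_bc213e_ag.DD.Geo
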